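import Pool.Agent.helper95.T5.SpecE

set_option autoImplicit false

/-!
# T5 (MP_16912e_nt), row t5:BCN: the numerical bound of the block sums
-/

namespace Pool.Agent.T5

open Finset NumberField Pool.Agent.helper3.FT Pool.Agent.helper47.RA

theorem BCN_mono (A B L : ℝ) (i j k : ℕ) :
    Real.exp (A / 4) ^ i * Real.exp (B / 4) ^ j * Real.exp ((A + B - L) / 2) ^ k =
      Real.exp (i * (A / 4) + j * (B / 4) + k * ((A + B - L) / 2)) := by
  rw [← Real.exp_nat_mul, ← Real.exp_nat_mul, ← Real.exp_nat_mul, ← Real.exp_add, ← Real.exp_add]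

theorem BCN_SB (A B L : ℝ) :
    SB (Real.exp (A / 4)) (Real.exp (B / 4)) (Real.exp ((A + B - L) / 2)) =
      Real.exp (A + B) + Real.exp (3 * A / 2) +
      Real.exp (A / 2 + 2 * B - L / 2) + Real.exp (7 * A / 4 + 3 * B / 4 - L / 2) +
      Real.exp (5 * A / 4 + 5 * B / 2 - L) + Real.exp (5 * A / 2 + 5 * B / 4 - L) +
      Real.exp (11 * A / 4 + B - L) + Real.exp (3 * A + 2 * B - 3 * L / 2) +
      Real.exp (13 * A / 4 + 7 * B / 4 - 3 * L / 2) := by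
  have e1 := BCN_mono A B L 4 4 0
  have e2 := BCN_mono A B L 6 0 0
  have e3 := BCN_mono A B L 0 6 1
  have e4 := BCN_mono A B L 5 1 1
  have e5 := BCN_mono A B L 1 6 2
  have e6 := BCN_mono A B L 6 1 2
  have e7 := BCN_mono A B L 7 0 2
  have e8 := BCN_mono A B L 6 2 3
  have e9 := BCN_mono A B L 7 1 3
  push_cast at e1 e2 e3 e4 e5 e6 e7 e8 e9
  have f1 : (4 * (A / 4) + 4 * (B / 4) + 0 * ((A + B - L) / 2) : ℝ) = A + B := by ring
  have f2 : (6 * (A / 4) + 0 * (B / 4) + 0 * ((A + B - L) / 2) : ℝ) = 3 * A / 2 := by ring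
  have f3 : (0 * (A / 4) + 6 * (B / 4) + 1 * ((A + B - L) / 2) : ℝ) = A / 2 + 2 * B - L / 2 := by
    ring
  have f4 : (5 * (A / 4) + 1 * (B / 4) + 1 * ((A + B - L) / 2) : ℝ) =
      7 * A / 4 + 3 * B / 4 - L / 2 := by ring
  have f5 : (1 * (A / 4) + 6 * (B / 4) + 2 * ((A + B - L) / 2) : ℝ) =
      5 * A / 4 + 5 * B / 2 - L := by ring
  have f6 : (6 * (A / 4) + 1 * (B / 4) + 2 * ((A + B - L) / 2) : ℝ) =
      5 * A / 2 + 5 * B / 4 - L := by ring
  have f7 : (7 * (A / 4) + 0 * (B / 4) + 2 * ((A + B - L) / 2) : ℝ) = 11 * A / 4 + B - L := by ring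
  have f8 : (6 * (A / 4) + 2 * (B / 4) + 3 * ((A + B - L) / 2) : ℝ) =
      3 * A + 2 * B - 3 * L / 2 := by ring
  have f9 : (7 * (A / 4) + 1 * (B / 4) + 3 * ((A + B - L) / 2) : ℝ) =
      13 * A / 4 + 7 * B / 4 - 3 * L / 2 := by ring
  rw [f1] at e1
  rw [f2] at e2
  rw [f3] at e3
  rw [f4] at e4
  rw [f5] at e5
  rw [f6] at e6
  rw [f7] at e7
  rw [f8] at e8
  rw [f9] at e9
  rw [← e1, ← e2, ← e3, ← e4, ← e5, ← e6, ← e7, ← e8, ← e9]
  unfold SB
  ring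

theorem BCN : BCN_stmt := by
  intro δ N Q₁ Q₂ hδ hδ1 hN h1 h2 h3 h4
  have hNp : 0 < N := by linarith
  have hQ₁ : 0 < Q₁ := lt_of_lt_of_le (Real.rpow_pos_of_pos hNp _) h1
  have hQ₂ : 0 < Q₂ := by linarith
  obtain ⟨L, hL⟩ : ∃ L : ℝ, L = Real.log N := ⟨_, rfl⟩
  obtain ⟨A, hA⟩ : ∃ A : ℝ, A = Real.log Q₁ := ⟨_, rfl⟩
  obtain ⟨B, hB⟩ : ∃ B : ℝ, B = Real.log Q₂ := ⟨_, rfl⟩
  have eN : N = Real.exp L := by rw [hL, Real.exp_log hNp]
  have eA : Q₁ = Real.exp A := by rw [hA, Real.exp_log hQ₁]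
  have eB : Q₂ = Real.exp B := by rw [hB, Real.exp_log hQ₂]
  have hL0 : 0 ≤ L := by
    rw [hL]
    exact Real.log_nonneg hN
  have hp : ∀ s : ℝ, N ^ s = Real.exp (L * s) := fun s => by
    rw [Real.rpow_def_of_pos hNp, hL]
  rw [hp, eA, Real.exp_le_exp] at h1
  rw [hp, eA, Real.exp_le_exp] at h2
  rw [hp, eB, Real.exp_le_exp] at h4
  rw [eB, Real.one_le_exp_iff] at h3
  obtain ⟨E, hE⟩ : ∃ E : ℝ, E = δ * L := ⟨_, rfl⟩
  have hE0 : 0 ≤ E := by
    rw [hE]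
    positivity
  have hE1 : E ≤ L / 10 := by
    rw [hE]
    have := mul_le_mul_of_nonneg_right hδ1 hL0
    linarith
  have g1 : 0.38 * L ≤ A := by linarith
  have g2 : A ≤ L / 2 - E := by
    rw [hE]
    linarith
  have g3 : B ≤ L / 2 + E / 100 := by
    rw [hE]
    linarith
  have q1 : Q₁ ^ (1 / 4 : ℝ) = Real.exp (A / 4) := by
    rw [Real.rpow_def_of_pos hQ₁, ← hA]
    congr 1
    ring
  have q2 : Q₂ ^ (1 / 4 : ℝ) = Real.exp (B / 4) := by
    rw [Real.rpow_def_of_pos hQ₂, ← hB]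
    congr 1
    ring
  have q3 : √(Q₁ * Q₂ / N) = Real.exp ((A + B - L) / 2) := by
    rw [eA, eB, eN, ← Real.exp_add, ← Real.exp_sub]
    rw [Real.sqrt_eq_iff_mul_self_eq (Real.exp_pos _).le (Real.exp_pos _).le, ← Real.exp_add]
    congr 1
    ring
  have s1 := BCN_SB A B L
  have s2 := BCN_SB B A L
  rw [add_comm B A] at s2
  rw [q1, q2, q3, s1, s2]
  have r1 : Q₁ * Q₂ = Real.exp (A + B) := by rw [eA, eB, ← Real.exp_add]
  have r2 : Q₁ * N ^ (1 / 2 - δ / 2) = Real.exp (A + L / 2 - E / 2) := by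
    rw [hp, eA, ← Real.exp_add]
    congr 1
    rw [hE]
    ring
  rw [r1, r2]
  have P : ∀ u : ℝ, u ≤ A + B → Real.exp u ≤ Real.exp (A + B) := fun u hu => Real.exp_le_exp.2 hu
  have R : ∀ u : ℝ, u ≤ A + L / 2 - E / 2 → Real.exp u ≤ Real.exp (A + L / 2 - E / 2) :=
    fun u hu => Real.exp_le_exp.2 hu
  have a2 := R (3 * A / 2) (by linarith)
  have a3 := P (A / 2 + 2 * B - L / 2) (by linarith)
  have a4 := R (7 * A / 4 + 3 * B / 4 - L / 2) (by linarith)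
  have a5 := P (5 * A / 4 + 5 * B / 2 - L) (by linarith)
  have a6 := P (5 * A / 2 + 5 * B / 4 - L) (by linarith)
  have a7 := P (11 * A / 4 + B - L) (by linarith)
  have a8 := R (3 * A + 2 * B - 3 * L / 2) (by linarith)
  have a9 := R (13 * A / 4 + 7 * B / 4 - 3 * L / 2) (by linarith)
  have b2 := R (3 * B / 2) (by linarith)
  have b3 := R (B / 2 + 2 * A - L / 2) (by linarith)
  have b4 := P (7 * B / 4 + 3 * A / 4 - L / 2) (by linarith)
  have b5 := P (5 * B / 4 + 5 * A / 2 - L) (by linarith)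
  have b6 := P (5 * B / 2 + 5 * A / 4 - L) (by linarith)
  have b7 := P (11 * B / 4 + A - L) (by linarith)
  have b8 := R (3 * B + 2 * A - 3 * L / 2) (by linarith)
  have b9 := R (13 * B / 4 + 7 * A / 4 - 3 * L / 2) (by linarith)
  have c1 : 0 < Real.exp (A + B) := Real.exp_pos _
  have c2 : 0 < Real.exp (A + L / 2 - E / 2) := Real.exp_pos _
  linarith

end Pool.Agent.T5
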