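import Pool.Agent.helper95.T5.SpecE

set_option autoImplicit false

/-!
# T5 (MP_16912e_nt), row t5:BCS: all blocks
-/

namespace Pool.Agent.T5

open Finset NumberField Pool.Agent.helper3.FT Pool.Agent.helper47.RA

theorem BCS_SB0 (x y S : ℝ) (hx : 0 ≤ x) (hy : 0 ≤ y) (hS : 0 ≤ S) : 0 ≤ SB x y S := by
  unfold SB
  positivity

/-- sizes of the first coordinates -/
theorem BCS_size (hSZ : SZ_stmt) (N Q₁ Q₂ : ℝ) (hN : 1 ≤ N) (hQ₁ : 1 ≤ Q₁) (hQ₂ : 1 ≤ Q₂)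
    (hQQ : Q₁ * Q₂ ≤ N) (t : Tpl) (ht : BCT N Q₁ Q₂ t) :
    (t.1.1 : ℝ) ≤ 4 * N ∧ (t.1.2 : ℝ) ≤ 4 * N := by
  have hZ : (0 : ℝ) < (t.2.2.2 : ℝ) := by
    have := ht.z1
    linarith
  have hl : (0 : ℝ) < (lam t : ℝ) := by
    have := ht.l1
    linarith
  have hZ' : 0 < t.2.2.2 := by exact_mod_cast hZ
  have hl' : 0 < lam t := by exact_mod_cast hl
  have hd : (dis t : ℝ) < 0 := by
    have := ht.d1
    linarith
  have hd' : dis t < 0 := by exact_mod_cast hd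
  obtain ⟨h1, h2, -, -⟩ := hSZ t ht.tt hZ' hl' hd'
  have h3 : √(N / 2) ≤ √(-(dis t : ℝ)) := Real.sqrt_le_sqrt ht.d1.le
  have h7 : √N ≤ 2 * √(N / 2) := by
    refine Real.sqrt_le_iff.2 ⟨by positivity, ?_⟩
    rw [mul_pow, Real.sq_sqrt (by linarith)]
    linarith
  have hN0 : 0 < √N := Real.sqrt_pos.2 (by linarith)
  have hZs : √(t.2.2.2 : ℝ) ≤ √Q₁ := Real.sqrt_le_sqrt ht.z2
  have hls : √(lam t : ℝ) ≤ √Q₂ := Real.sqrt_le_sqrt ht.l2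
  have hZsq : √(t.2.2.2 : ℝ) * √(t.2.2.2 : ℝ) = t.2.2.2 := Real.mul_self_sqrt hZ.le
  have hlsq : √(lam t : ℝ) * √(lam t : ℝ) = lam t := Real.mul_self_sqrt hl.le
  have hQ : √Q₁ * √Q₂ ≤ √N := by
    rw [← Real.sqrt_mul (by linarith)]
    exact Real.sqrt_le_sqrt hQQ
  have s1 : 0 ≤ √Q₁ := Real.sqrt_nonneg _
  have s2 : 0 ≤ √Q₂ := Real.sqrt_nonneg _
  have s3 : 0 ≤ √(t.2.2.2 : ℝ) := Real.sqrt_nonneg _
  have s4 : 0 ≤ √(lam t : ℝ) := Real.sqrt_nonneg _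
  have hzl : √(t.2.2.2 : ℝ) * √(lam t : ℝ) ≤ √N :=
    (mul_le_mul hZs hls s4 s1).trans hQ
  have hle : ∀ Q : ℝ, 1 ≤ Q → Q ≤ N → √Q ≤ N := by
    intro Q hQ1 hQN
    refine Real.sqrt_le_iff.2 ⟨by linarith, ?_⟩
    nlinarith
  have hQ₁N : √Q₁ ≤ N := hle Q₁ hQ₁ (by nlinarith)
  have hQ₂N : √Q₂ ≤ N := hle Q₂ hQ₂ (by nlinarith)
  have key : ∀ (m : ℕ) (q : ℝ), q ≤ N → 0 ≤ q → (m : ℝ) * √(-(dis t : ℝ)) ≤ 2 * (q * √N) →
      (m : ℝ) ≤ 4 * N := by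
    intro m q hq hq0 hm
    have hm0 : (0 : ℝ) ≤ m := Nat.cast_nonneg m
    have e1 : (m : ℝ) * √N ≤ 4 * N * √N := by
      calc (m : ℝ) * √N ≤ m * (2 * √(N / 2)) := mul_le_mul_of_nonneg_left h7 hm0
        _ = 2 * (m * √(N / 2)) := by ring
        _ ≤ 2 * (m * √(-(dis t : ℝ))) := by
            have := mul_le_mul_of_nonneg_left h3 hm0
            linarith
        _ ≤ 2 * (2 * (q * √N)) := by linarith
        _ = 4 * (q * √N) := by ring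
        _ ≤ 4 * (N * √N) := by
            have := mul_le_mul_of_nonneg_right hq hN0.le
            linarith
        _ = 4 * N * √N := by ring
    exact le_of_mul_le_mul_right e1 hN0
  constructor
  · refine key t.1.1 (√Q₁) hQ₁N s1 (h1.trans ?_)
    calc 2 * (t.2.2.2 : ℝ) * √(lam t : ℝ) =
        2 * (√(t.2.2.2 : ℝ) * (√(t.2.2.2 : ℝ) * √(lam t : ℝ))) := by
          rw [← mul_assoc (√(t.2.2.2 : ℝ)), hZsq]
          ring
      _ ≤ 2 * (√Q₁ * √N) := by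
          have := mul_le_mul hZs hzl (mul_nonneg s3 s4) s1
          linarith
  · refine key t.1.2 (√Q₂) hQ₂N s2 (h2.trans ?_)
    calc 2 * √(t.2.2.2 : ℝ) * (lam t : ℝ) =
        2 * (√(lam t : ℝ) * (√(t.2.2.2 : ℝ) * √(lam t : ℝ))) := by
          have : √(lam t : ℝ) * (√(t.2.2.2 : ℝ) * √(lam t : ℝ)) =
            √(t.2.2.2 : ℝ) * (√(lam t : ℝ) * √(lam t : ℝ)) := by ring
          rw [this, hlsq]
          ring
      _ ≤ 2 * (√Q₂ * √N) := by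
          have := mul_le_mul hls hzl (mul_nonneg s3 s4) s2
          linarith

theorem BCS_log (ε : ℝ) (hε : 0 < ε) : ∃ C : ℝ, 1 ≤ C ∧ ∀ N : ℝ, 1 ≤ N →
    (2 + 2 * Real.log (4 * N / 1)) ^ 2 ≤ C * N ^ (ε / 2) := by
  have h0 : 0 < ε / 4 := by positivity
  have h1 : 0 ≤ 2 * (4 : ℝ) ^ (ε / 4) / (ε / 4) := by positivity
  refine ⟨(2 + 2 * (4 : ℝ) ^ (ε / 4) / (ε / 4)) ^ 2, ?_, ?_⟩
  · have : 2 ≤ 2 + 2 * (4 : ℝ) ^ (ε / 4) / (ε / 4) := by linarith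
    nlinarith
  · intro N hN
    have hNp : 0 < N := by linarith
    have h2 : Real.log (4 * N / 1) ≤ (4 * N) ^ (ε / 4) / (ε / 4) := by
      rw [div_one]
      exact Real.log_le_rpow_div (by positivity) h0
    have h3 : 0 ≤ Real.log (4 * N / 1) := by
      rw [div_one]
      exact Real.log_nonneg (by linarith)
    have h4 : (1 : ℝ) ≤ N ^ (ε / 4) := Real.one_le_rpow hN h0.le
    have h5 : (4 * N) ^ (ε / 4) = (4 : ℝ) ^ (ε / 4) * N ^ (ε / 4) :=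
      Real.mul_rpow (by norm_num) hNp.le
    have h6 : 2 + 2 * Real.log (4 * N / 1) ≤
        (2 + 2 * (4 : ℝ) ^ (ε / 4) / (ε / 4)) * N ^ (ε / 4) := by
      calc 2 + 2 * Real.log (4 * N / 1) ≤ 2 + 2 * ((4 : ℝ) ^ (ε / 4) * N ^ (ε / 4) / (ε / 4)) := by
            rw [← h5]
            linarith
        _ ≤ 2 * N ^ (ε / 4) + 2 * ((4 : ℝ) ^ (ε / 4) * N ^ (ε / 4) / (ε / 4)) := by linarith
        _ = _ := by ring
    calc (2 + 2 * Real.log (4 * N / 1)) ^ 2 ≤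
        ((2 + 2 * (4 : ℝ) ^ (ε / 4) / (ε / 4)) * N ^ (ε / 4)) ^ 2 :=
          pow_le_pow_left₀ (by linarith) h6 2
      _ = (2 + 2 * (4 : ℝ) ^ (ε / 4) / (ε / 4)) ^ 2 * N ^ (ε / 2) := by
          rw [mul_pow, ← Real.rpow_natCast (N ^ (ε / 4)), ← Real.rpow_mul hNp.le]
          congr 2
          push_cast
          ring

theorem BCS (hBCA : BCA_stmt) (hSWP : SWP_stmt) (hSZ : SZ_stmt) (hTR : TR_stmt)
    (hDYB : DYB_stmt) : BCS_stmt := by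
  intro ε hε
  obtain ⟨C₁, hC₁, hA⟩ := hBCA (ε / 2) (by positivity)
  obtain ⟨C₂, hC₂, hL⟩ := BCS_log ε hε
  refine ⟨C₂ * C₁, by nlinarith, ?_⟩
  intro N Q₁ Q₂ hN hQ₁ hQ₂ hQQ hs1 hs2 F hF
  classical
  have hNp : 0 < N := by linarith
  have hN2 : 0 < N ^ (ε / 2) := Real.rpow_pos_of_pos hNp _
  obtain ⟨I, hI1, hI2, hI3⟩ := hDYB 1 (4 * N) le_rfl (by linarith)
  set U : ℝ := SB (Q₁ ^ (1 / 4 : ℝ)) (Q₂ ^ (1 / 4 : ℝ)) √(Q₁ * Q₂ / N) with hU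
  set U' : ℝ := SB (Q₂ ^ (1 / 4 : ℝ)) (Q₁ ^ (1 / 4 : ℝ)) √(Q₁ * Q₂ / N) with hU'
  have hU0 : 0 ≤ U := BCS_SB0 _ _ _ (by positivity) (by positivity) (Real.sqrt_nonneg _)
  have hU'0 : 0 ≤ U' := BCS_SB0 _ _ _ (by positivity) (by positivity) (Real.sqrt_nonneg _)
  -- the blocks
  set G : ℕ × ℕ → Finset Tpl := fun q => F.filter (fun t =>
    q.1 < 2 * t.1.1 ∧ t.1.1 ≤ q.1 ∧ q.2 < 2 * t.1.2 ∧ t.1.2 ≤ q.2) with hG
  have hcov : F ⊆ (I ×ˢ I).biUnion G := by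
    intro t ht
    obtain ⟨h1, h2⟩ := BCS_size hSZ N Q₁ Q₂ hN hQ₁ hQ₂ hQQ t (hF t ht)
    have hn : (1 : ℝ) ≤ (t.1.1 : ℝ) := by exact_mod_cast (hF t ht).tt.n1
    have hk : (1 : ℝ) ≤ (t.1.2 : ℝ) := by exact_mod_cast (hF t ht).tt.k1
    obtain ⟨N₁, hN₁, a1, a2⟩ := hI3 t.1.1 hn h1
    obtain ⟨K₁, hK₁, b1, b2⟩ := hI3 t.1.2 hk h2
    refine Finset.mem_biUnion.2 ⟨(N₁, K₁), Finset.mem_product.2 ⟨hN₁, hK₁⟩, ?_⟩
    exact Finset.mem_filter.2 ⟨ht, a1, a2, b1, b2⟩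
  have hblk : ∀ q ∈ I ×ˢ I, ((G q).card : ℝ) ≤ C₁ * N ^ (ε / 2) * (U + U') := by
    intro q hq
    obtain ⟨hq1, hq2⟩ := Finset.mem_product.1 hq
    have hn1 := (hI2 q.1 hq1).1
    have hk1 := (hI2 q.2 hq2).1
    have hGm : ∀ t ∈ G q, t ∈ F ∧ q.1 < 2 * t.1.1 ∧ t.1.1 ≤ q.1 ∧ q.2 < 2 * t.1.2 ∧
        t.1.2 ≤ q.2 := fun t ht => Finset.mem_filter.1 ht
    rcases le_total (Q₁ * (q.2 : ℝ) ^ 2) (4 * Q₂ * (q.1 : ℝ) ^ 2) with hc | hc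
    · have h1 := hA N Q₁ Q₂ q.1 q.2 hN hQ₁ hQ₂ hQQ hs1 hn1 hk1 hc (G q) (fun t ht => by
        obtain ⟨g1, g2⟩ := hGm t ht
        exact ⟨hF t g1, g2⟩)
      refine h1.trans ?_
      exact mul_le_mul_of_nonneg_left (by linarith) (by positivity)
    · have hc' : Q₂ * (q.1 : ℝ) ^ 2 ≤ 4 * Q₁ * (q.2 : ℝ) ^ 2 := by
        have e1 : 0 ≤ Q₂ * (q.1 : ℝ) ^ 2 := by positivity
        have e2 : 0 ≤ Q₁ * (q.2 : ℝ) ^ 2 := by positivity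
        linarith
      have hinj : Set.InjOn swp (G q : Set Tpl) := by
        intro t ht t' ht' h
        exact hSWP.2 t t' (hF t (hGm t ht).1).tt (hF t' (hGm t' ht').1).tt h
      have h1 := hA N Q₂ Q₁ q.2 q.1 hN hQ₂ hQ₁ (by rw [mul_comm]; exact hQQ) hs2 hk1 hn1 hc'
        ((G q).image swp) (fun t' ht' => by
          obtain ⟨t, ht, rfl⟩ := Finset.mem_image.1 ht'
          obtain ⟨g1, g2, g3, g4, g5⟩ := hGm t ht
          have hB := hF t g1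
          obtain ⟨w1, w2, w3, -⟩ := hSWP.1 t hB.tt
          refine ⟨⟨w1, ?_, ?_, ?_, ?_, ?_⟩, g4, g5, g2, g3⟩
          · exact hB.l1
          · exact hB.l2
          · rw [w2]
            exact hB.z1
          · rw [w2]
            exact hB.z2
          · rw [w3]
            exact hB.d1)
      rw [Finset.card_image_of_injOn hinj, mul_comm Q₂ Q₁] at h1
      refine h1.trans ?_
      exact mul_le_mul_of_nonneg_left (by linarith) (by positivity)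
  have hcard : (F.card : ℝ) ≤ ((I ×ˢ I).card : ℝ) * (C₁ * N ^ (ε / 2) * (U + U')) := by
    calc (F.card : ℝ) ≤ (((I ×ˢ I).biUnion G).card : ℝ) := by
          exact_mod_cast Finset.card_le_card hcov
      _ ≤ ∑ q ∈ I ×ˢ I, ((G q).card : ℝ) := by
          exact_mod_cast Finset.card_biUnion_le
      _ ≤ ∑ _q ∈ I ×ˢ I, C₁ * N ^ (ε / 2) * (U + U') := Finset.sum_le_sum hblk
      _ = _ := by rw [Finset.sum_const, nsmul_eq_mul]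
  have hI : ((I ×ˢ I).card : ℝ) ≤ C₂ * N ^ (ε / 2) := by
    rw [Finset.card_product]
    push_cast
    calc (I.card : ℝ) * I.card = (I.card : ℝ) ^ 2 := by ring
      _ ≤ (2 + 2 * Real.log (4 * N / 1)) ^ 2 := pow_le_pow_left₀ (Nat.cast_nonneg _) hI1 2
      _ ≤ _ := hL N hN
  have hW : 0 ≤ C₁ * N ^ (ε / 2) * (U + U') := by positivity
  calc (F.card : ℝ) ≤ ((I ×ˢ I).card : ℝ) * (C₁ * N ^ (ε / 2) * (U + U')) := hcard
    _ ≤ C₂ * N ^ (ε / 2) * (C₁ * N ^ (ε / 2) * (U + U')) := mul_le_mul_of_nonneg_right hI hW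
    _ = C₂ * C₁ * (N ^ (ε / 2) * N ^ (ε / 2)) * (U + U') := by ring
    _ = C₂ * C₁ * N ^ ε * (U + U') := by
        rw [← Real.rpow_add hNp]
        congr 3
        ring

end Pool.Agent.T5
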