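import Pool.Agent.helper26.T5.SpecB

set_option autoImplicit false

/-!
# T5 (MP_16912e_nt), row t5:LI: points of large content
-/

namespace Pool.Agent.helper26.T5

open NumberField Pool.Agent.helper3.FT Pool.Agent.helper47.RA Pool.Agent.T5

theorem h70_sum_inv_sq (w M : ℕ) (hw : 1 ≤ w) :
    ∑ j ∈ Finset.Ioc w M, ((j : ℝ) ^ 2)⁻¹ ≤ (w : ℝ)⁻¹ := by
  rcases le_total w M with h | h
  · have h1 := sum_Ioc_inv_sq_le_sub (α := ℝ) (k := w) (n := M) (by omega) h
    have h2 : 0 ≤ (M : ℝ)⁻¹ := by positivity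
    linarith
  · rw [Finset.Ioc_eq_empty_of_le h, Finset.sum_empty]
    positivity

theorem li (hLP : LP) (hLCM : LCM) : LI := by
  intro K _ _ Q a w ℓ T hD hP ha hw hℓ hT hNE S hS
  classical
  have hch : ∀ α : 𝓞 K, ∃ q : ℕ × 𝓞 K, α ∈ S → 1 ≤ q.1 ∧ α = q.1 * q.2 ∧ Cont1 a q.2 ∧
      q.2 ∈ AL Q a (T / (q.1 : ℝ) ^ 2) ∧ w < q.1 := by
    intro α
    by_cases hα : α ∈ S
    · obtain ⟨h1, h2, h3⟩ := hS α hα
      obtain ⟨j, α', hj, he, hc, hA, hor⟩ := hLCM K Q a T w α hD hP ha h1 h2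
      refine ⟨(j, α'), fun _ => ⟨hj, he, hc, hA, ?_⟩⟩
      rcases hor with h | h
      · exfalso
        apply h3
        rw [he, h]
        simpa using hc
      · exact h
    · exact ⟨(1, 1), fun h => absurd h hα⟩
  choose q hq using hch
  set M : ℕ := ⌊√(T / ℓ)⌋₊ with hM
  have hs : 0 ≤ √|(Q.D : ℝ)| := Real.sqrt_nonneg _
  have hmem : ∀ α ∈ S, (q α).1 ∈ Finset.Ioc w M := by
    intro α hα
    obtain ⟨h1, -, -, h4, h5⟩ := hq α hα
    obtain ⟨h6, h7, h8⟩ := h4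
    have hne : (q α).2 ≠ 0 := by
      intro h0
      rw [h0] at h7
      have : Q.Y 0 = 0 := by
        have h := Q.Y_int_mul 0 0
        simpa using h
      rw [this] at h7
      exact lt_irrefl _ h7
    have h9 := (hNE _ h6 hne).trans_le h8
    have h10 : ℓ < T / ((q α).1 : ℝ) ^ 2 := lt_of_mul_lt_mul_left h9 (sq_nonneg _)
    have hj : (0 : ℝ) < ((q α).1 : ℝ) ^ 2 := by
      have : (0 : ℝ) < (q α).1 := by exact_mod_cast h1
      positivity
    have h11 : ((q α).1 : ℝ) ^ 2 < T / ℓ := by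
      rw [lt_div_iff₀ hj] at h10
      rw [lt_div_iff₀ hℓ]
      linarith
    have h12 : ((q α).1 : ℝ) < √(T / ℓ) := Real.lt_sqrt_of_sq_lt h11
    exact Finset.mem_Ioc.2 ⟨h5, Nat.le_floor h12.le⟩
  have hcard : S.card = ∑ j ∈ Finset.Ioc w M, (S.filter fun α => (q α).1 = j).card :=
    Finset.card_eq_sum_card_fiberwise hmem
  have hfib : ∀ j ∈ Finset.Ioc w M, ((S.filter fun α => (q α).1 = j).card : ℝ) ≤
      1 + 2 * Real.pi * T / √|(Q.D : ℝ)| * ((j : ℝ) ^ 2)⁻¹ := by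
    intro j hj
    have hj0 : (0 : ℝ) < j := by
      have := (Finset.mem_Ioc.1 hj).1
      exact_mod_cast (by omega : 0 < j)
    have hinj : Set.InjOn (fun α => (q α).2) (S.filter fun α => (q α).1 = j : Finset (𝓞 K)) := by
      intro α hα β hβ hαβ
      rw [Finset.mem_coe, Finset.mem_filter] at hα hβ
      have e1 := (hq α hα.1).2.1
      have e2 := (hq β hβ.1).2.1
      have e3 : (q α).2 = (q β).2 := hαβ
      rw [e1, e2, e3, hα.2, hβ.2]
    rw [← Finset.card_image_of_injOn hinj]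
    have h := hLP K Q a (T / (j : ℝ) ^ 2) 1 1 hD ha (by positivity) le_rfl
      (Nat.coprime_one_left _) squarefree_one (by norm_num)
      (fun p hp h1 => absurd (Nat.dvd_one.1 h1) hp.one_lt.ne')
      ((S.filter fun α => (q α).1 = j).image fun α => (q α).2) (by
        intro β hβ
        obtain ⟨α, hα, rfl⟩ := Finset.mem_image.1 hβ
        obtain ⟨hαS, hαj⟩ := Finset.mem_filter.1 hα
        obtain ⟨h1, -, h3, h4, -⟩ := hq α hαS
        rw [hαj] at h4
        refine ⟨h4, h3, by simp, ?_⟩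
        have h6 : (q α).2 ∈ a ^ 2 := h4.1
        have h7 := Ideal.absNorm_dvd_absNorm_of_le ((Ideal.span_singleton_le_iff_mem (a ^ 2)).2 h6)
        rw [map_pow] at h7
        rw [one_mul]
        exact h7)
    refine h.trans (le_of_eq ?_)
    push_cast
    rw [one_mul, one_mul]
    congr 1
    rw [div_eq_mul_inv, div_eq_mul_inv, div_eq_mul_inv]
    ring
  have hfl : (M : ℝ) ≤ √(T / ℓ) := Nat.floor_le (Real.sqrt_nonneg _)
  have hsum := h70_sum_inv_sq w M hw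
  have hc0 : 0 ≤ 2 * Real.pi * T / √|(Q.D : ℝ)| := by positivity
  calc (S.card : ℝ) = ∑ j ∈ Finset.Ioc w M, ((S.filter fun α => (q α).1 = j).card : ℝ) := by
        rw [hcard]
        push_cast
        rfl
    _ ≤ ∑ j ∈ Finset.Ioc w M, (1 + 2 * Real.pi * T / √|(Q.D : ℝ)| * ((j : ℝ) ^ 2)⁻¹) :=
        Finset.sum_le_sum hfib
    _ = ((Finset.Ioc w M).card : ℝ) +
        2 * Real.pi * T / √|(Q.D : ℝ)| * ∑ j ∈ Finset.Ioc w M, ((j : ℝ) ^ 2)⁻¹ := by
        rw [Finset.sum_add_distrib, Finset.mul_sum, Finset.sum_const, nsmul_eq_mul, mul_one]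
    _ ≤ √(T / ℓ) + 2 * Real.pi * T / √|(Q.D : ℝ)| * (w : ℝ)⁻¹ := by
        refine add_le_add ?_ (mul_le_mul_of_nonneg_left hsum hc0)
        refine le_trans ?_ hfl
        rw [Nat.card_Ioc]
        exact_mod_cast Nat.sub_le _ _
    _ = √(T / ℓ) + 2 * Real.pi * T / (w * √|(Q.D : ℝ)|) := by
        congr 1
        rw [div_eq_mul_inv, div_eq_mul_inv, mul_inv]
        ring

end Pool.Agent.helper26.T5
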