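import Pool.Agent.helper95.T5.SpecE

set_option autoImplicit false

/-!
# T5 (MP_16912e_nt), row t5:BCF: all blocks
-/

namespace Pool.Agent.T5

open Finset NumberField Pool.Agent.helper3.FT Pool.Agent.helper47.RA

theorem BCF_aux (hSZ : SZ_stmt) (N Q₁ Q₂ : ℝ) (hN : 1 ≤ N) (hQ₁ : 1 ≤ Q₁) (hQ₂ : 1 ≤ Q₂)
    (hQN : Q₁ ≤ √N) (t : Tpl) (ht : BCT N Q₁ Q₂ t) : √Q₁ ≤ 8 * Q₂ := by
  have hZ : (0 : ℝ) < (t.2.2.2 : ℝ) := by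
    have := ht.z1
    linarith
  have hl : (0 : ℝ) < (lam t : ℝ) := by
    have := ht.l1
    linarith
  have hZ' : 0 < t.2.2.2 := by exact_mod_cast hZ
  have hl' : 0 < lam t := by exact_mod_cast hl
  have hd : (dis t : ℝ) < 0 := by
    have := ht.d1
    linarith
  have hd' : dis t < 0 := by exact_mod_cast hd
  obtain ⟨-, h2, -, -⟩ := hSZ t ht.tt hZ' hl' hd'
  have hk : (1 : ℝ) ≤ (t.1.2 : ℝ) := by exact_mod_cast ht.tt.k1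
  have h3 : √(N / 2) ≤ √(-(dis t : ℝ)) := Real.sqrt_le_sqrt ht.d1.le
  have h4 : √(-(dis t : ℝ)) ≤ (t.1.2 : ℝ) * √(-(dis t : ℝ)) :=
    le_mul_of_one_le_left (Real.sqrt_nonneg _) hk
  have h5 : 2 * √(t.2.2.2 : ℝ) * lam t ≤ 2 * √Q₁ * Q₂ := by
    have e1 : √(t.2.2.2 : ℝ) ≤ √Q₁ := Real.sqrt_le_sqrt ht.z2
    have e2 := ht.l2
    have e3 : 0 ≤ √(t.2.2.2 : ℝ) := Real.sqrt_nonneg _
    have e4 : 0 ≤ √Q₁ := Real.sqrt_nonneg _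
    calc 2 * √(t.2.2.2 : ℝ) * lam t ≤ 2 * √Q₁ * lam t := by
          refine mul_le_mul_of_nonneg_right (by linarith) hl.le
      _ ≤ 2 * √Q₁ * Q₂ := mul_le_mul_of_nonneg_left e2 (by positivity)
  have h6 : √(N / 2) ≤ 2 * √Q₁ * Q₂ := by linarith
  have h7 : √N ≤ 2 * √(N / 2) := by
    refine Real.sqrt_le_iff.2 ⟨by positivity, ?_⟩
    rw [mul_pow, Real.sq_sqrt (by linarith)]
    linarith
  have h8 : √Q₁ * √Q₁ ≤ √N := by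
    rw [Real.mul_self_sqrt (by linarith)]
    exact hQN
  have h9 : 0 < √Q₁ := Real.sqrt_pos.2 (by linarith)
  have h10 : √Q₁ * √Q₁ ≤ √Q₁ * (4 * Q₂) := by
    calc √Q₁ * √Q₁ ≤ √N := h8
      _ ≤ 2 * √(N / 2) := h7
      _ ≤ 2 * (2 * √Q₁ * Q₂) := by linarith
      _ = √Q₁ * (4 * Q₂) := by ring
  have h11 : √Q₁ ≤ 4 * Q₂ := le_of_mul_le_mul_left h10 h9
  linarith

theorem BCF (hBCS : BCS_stmt) (hBCN : BCN_stmt) (hSZ : SZ_stmt) : BCF_stmt := by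
  intro δ hδ hδ1
  refine ⟨δ / 2, by positivity, fun ε hε => ?_⟩
  obtain ⟨C, hC, hB⟩ := hBCS ε hε
  refine ⟨20 * C, by linarith, ?_⟩
  intro N Q₁ Q₂ hN h1 h2 h3 h4 F hF
  have hNp : 0 < N := by linarith
  have hQ₁ : 1 ≤ Q₁ := (Real.one_le_rpow hN (by norm_num)).trans h1
  have hQN : Q₁ ≤ √N := by
    rw [Real.sqrt_eq_rpow]
    exact h2.trans (Real.rpow_le_rpow_of_exponent_le hN (by linarith))
  have hNε : 0 < N ^ ε := Real.rpow_pos_of_pos hNp _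
  have hNr : 0 < N ^ (1 / 2 - δ / 2) := Real.rpow_pos_of_pos hNp _
  have hR0 : 0 ≤ Q₁ * Q₂ + Q₁ * N ^ (1 / 2 - δ / 2) := by positivity
  rcases F.eq_empty_or_nonempty with rfl | ⟨t, ht⟩
  · rw [Finset.card_empty, Nat.cast_zero]
    positivity
  have hF' : ∀ t ∈ F, BCT N Q₁ Q₂ t := fun t ht => by
    obtain ⟨a1, a2, a3, a4, a5, a6⟩ := hF t ht
    exact ⟨a1, a2, a3, a4, a5, a6⟩
  have hQQ : Q₁ * Q₂ ≤ N := by
    calc Q₁ * Q₂ ≤ N ^ (1 / 2 - δ) * N ^ (1 / 2 + δ / 100) :=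
          mul_le_mul h2 h4 (by linarith) (Real.rpow_nonneg hNp.le _)
      _ = N ^ (1 / 2 - δ + (1 / 2 + δ / 100)) := (Real.rpow_add hNp _ _).symm
      _ ≤ N ^ (1 : ℝ) := Real.rpow_le_rpow_of_exponent_le hN (by linarith)
      _ = N := Real.rpow_one _
  have hs1 := BCF_aux hSZ N Q₁ Q₂ hN hQ₁ h3 hQN t (hF' t ht)
  have hs2 : √Q₂ ≤ 8 * Q₁ := by
    have e1 : √Q₂ ≤ N ^ (0.38 : ℝ) := by
      refine Real.sqrt_le_iff.2 ⟨Real.rpow_nonneg hNp.le _, ?_⟩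
      rw [← Real.rpow_natCast, ← Real.rpow_mul hNp.le]
      refine h4.trans (Real.rpow_le_rpow_of_exponent_le hN ?_)
      push_cast
      linarith
    linarith
  have h5 := hB N Q₁ Q₂ hN hQ₁ h3 hQQ hs1 hs2 F hF'
  have h6 := hBCN δ N Q₁ Q₂ hδ hδ1 hN h1 h2 h3 h4
  refine h5.trans ?_
  calc C * N ^ ε * (SB (Q₁ ^ (1 / 4 : ℝ)) (Q₂ ^ (1 / 4 : ℝ)) √(Q₁ * Q₂ / N) +
      SB (Q₂ ^ (1 / 4 : ℝ)) (Q₁ ^ (1 / 4 : ℝ)) √(Q₁ * Q₂ / N)) ≤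
        C * N ^ ε * (20 * (Q₁ * Q₂ + Q₁ * N ^ (1 / 2 - δ / 2))) :=
          mul_le_mul_of_nonneg_left h6 (by positivity)
    _ = 20 * C * N ^ ε * (Q₁ * Q₂ + Q₁ * N ^ (1 / 2 - δ / 2)) := by ring

end Pool.Agent.T5
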